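import Mathlib
set_option autoImplicit false

namespace Pool.Agent.Helper219.AT.H36T

/-- Lorentz product, time coordinate last -/
def lor (x y : Fin 4 → ℝ) : ℝ := x 0 * y 0 + x 1 * y 1 + x 2 * y 2 - x 3 * y 3

theorem cs3 (a b c p q r : ℝ) : (a*p+b*q+c*r)^2 ≤ (a^2+b^2+c^2)*(p^2+q^2+r^2) := by
  nlinarith [sq_nonneg (a*q-b*p), sq_nonneg (a*r-c*p), sq_nonneg (b*r-c*q)]

/-- timelike future times causal future is negative -/
theorem lor_neg (x u : Fin 4 → ℝ) (hx : lor x x = -1) (hx3 : 0 < x 3) (hu : lor u u ≤ 0) (hu3 : 0 < u 3) :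
    lor x u < 0 := by
  unfold lor at *
  by_contra hcon
  push Not at hcon
  have h1 : x 3 * u 3 ≤ x 0 * u 0 + x 1 * u 1 + x 2 * u 2 := by linarith
  have h2 : 0 < x 3 * u 3 := mul_pos hx3 hu3
  have h3 : (x 3 * u 3)^2 ≤ (x 0 * u 0 + x 1 * u 1 + x 2 * u 2)^2 := by
    apply pow_le_pow_left₀ h2.le h1
  have h4 := cs3 (x 0) (x 1) (x 2) (u 0) (u 1) (u 2)
  have h5 : (x 0)^2 + (x 1)^2 + (x 2)^2 = (x 3)^2 - 1 := by nlinarith
  have h6 : (u 0)^2 + (u 1)^2 + (u 2)^2 ≤ (u 3)^2 := by nlinarith
  have h7 : 0 ≤ (x 0)^2 + (x 1)^2 + (x 2)^2 := by positivity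
  have h8 : ((x 0)^2 + (x 1)^2 + (x 2)^2) * ((u 0)^2 + (u 1)^2 + (u 2)^2) ≤ ((x 3)^2 - 1) * (u 3)^2 := by
    rw [h5]; rw [h5] at h7
    exact mul_le_mul_of_nonneg_left h6 h7
  have h9 : 0 < (u 3)^2 := by positivity
  nlinarith

theorem tits {B W : Type*} [Group W] {M : CoxeterMatrix B} (cs : CoxeterSystem M W)
    (v : B → Fin 4 → ℝ) (x : W → Fin 4 → ℝ)
    (hx1 : x 1 = ![0,0,0,1])
    (hx : ∀ i w, x (cs.simple i * w) = x w - lor (x w) (v i) • v i)
    (hv0 : ∀ i, v i 0 ^ 2 = 1) (hv1 : ∀ i, v i 1 ^ 2 = 1) (hv2 : ∀ i, v i 2 ^ 2 = 1)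
    (hv3 : ∀ i, v i 3 = 1)
    (hM : ∀ i j, i ≠ j → (cs.simple i * cs.simple j = cs.simple j * cs.simple i ∧ lor (v i) (v j) = 0) ∨
      lor (v i) (v j) ≤ -2) :
    ∀ w, (lor (x w) (x w) = -1 ∧ 0 < x w 3) ∧
      ∀ i, (cs.IsLeftDescent w i → 0 < lor (x w) (v i)) ∧ (¬ cs.IsLeftDescent w i → lor (x w) (v i) < 0) := by
  have hvv : ∀ i, lor (v i) (v i) = 2 := by
    intro i
    unfold lor
    have := hv0 i; have := hv1 i; have := hv2 i; have := hv3 i
    rw [hv3 i]; nlinarith
  have hmain : ∀ n : ℕ, ∀ w, cs.length w = n → (lor (x w) (x w) = -1 ∧ 0 < x w 3) ∧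
      ∀ i, (cs.IsLeftDescent w i → 0 < lor (x w) (v i)) ∧
        (¬ cs.IsLeftDescent w i → lor (x w) (v i) < 0) := by
    intro n
    induction n with
    | zero =>
      intro w hw
      rw [cs.length_eq_zero_iff] at hw
      subst hw
      rw [hx1]
      refine ⟨⟨by simp [lor], by simp⟩, ?_⟩
      intro i
      refine ⟨fun h => absurd h (cs.not_isLeftDescent_one i), fun _ => ?_⟩
      simp [lor, hv3 i]
    | succ n ih =>
      intro w hw
      have hw1 : w ≠ 1 := by
        rintro rfl; simp at hw
      obtain ⟨s, hs⟩ := cs.exists_leftDescent_of_ne_one hw1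
      have hs' := cs.isLeftDescent_iff.1 hs
      have hlen : cs.length (cs.simple s * w) = n := by omega
      obtain ⟨⟨ih1, ih2⟩, ih3⟩ := ih _ hlen
      set w' := cs.simple s * w with hw'
      have hww : w = cs.simple s * w' := by
        rw [hw', ← mul_assoc, cs.simple_mul_simple_self, one_mul]
      have hxw : x w = x w' - lor (x w') (v s) • v s := by
        rw [hww]; exact hx s w'
      have hnd : ¬ cs.IsLeftDescent w' s := by
        rw [cs.not_isLeftDescent_iff]
        rw [← hww]; omega
      have hneg := (ih3 s).2 hnd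
      -- expand the forms
      have hexp : ∀ y, lor (x w) y = lor (x w') y - lor (x w') (v s) * lor (v s) y := by
        intro y
        rw [hxw]; simp only [lor, Pi.sub_apply, Pi.smul_apply, smul_eq_mul]; ring
      have hform : lor (x w) (x w) = -1 := by
        have e1 : lor (x w) (x w) = lor (x w') (x w') - 2 * lor (x w') (v s) * lor (x w') (v s)
            + lor (x w') (v s) ^ 2 * lor (v s) (v s) := by
          rw [hxw]; simp only [lor, Pi.sub_apply, Pi.smul_apply, smul_eq_mul]; ring
        rw [e1, ih1, hvv s]; ring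
      have hpos3 : 0 < x w 3 := by
        rw [hxw]; simp only [Pi.sub_apply, Pi.smul_apply, smul_eq_mul, hv3 s]
        linarith
      refine ⟨⟨hform, hpos3⟩, ?_⟩
      intro t
      by_cases hts : t = s
      · subst hts
        have : lor (x w) (v t) = - lor (x w') (v t) := by
          rw [hexp, hvv t]; ring
        exact ⟨fun _ => by rw [this]; linarith, fun h => absurd hs h⟩
      · -- t ≠ s
        have hnt : ¬ cs.IsLeftDescent w t → lor (x w) (v t) < 0 := by
          intro hnt
          rcases hM s t (fun h => hts h.symm) with ⟨hc, h0⟩ | hle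
          · rw [hexp, h0, mul_zero, sub_zero]
            apply (ih3 t).2
            intro hd
            apply hnt
            have hd' := cs.isLeftDescent_iff.1 hd
            unfold CoxeterSystem.IsLeftDescent
            have : cs.simple t * w = cs.simple s * (cs.simple t * w') := by
              calc cs.simple t * w = cs.simple t * (cs.simple s * w') := by rw [← hww]
                _ = (cs.simple t * cs.simple s) * w' := by rw [mul_assoc]
                _ = (cs.simple s * cs.simple t) * w' := by rw [hc]
                _ = cs.simple s * (cs.simple t * w') := by rw [mul_assoc]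
            rw [this]
            rcases cs.length_simple_mul (cs.simple t * w') s with h | h <;> omega
          · have hcausal : lor (x w') (v s + v t) < 0 := by
              apply lor_neg _ _ ih1 ih2
              · have : lor (v s + v t) (v s + v t) = lor (v s) (v s) + lor (v t) (v t) + 2 * lor (v s) (v t) := by
                  simp only [lor, Pi.add_apply]; ring
                rw [this, hvv, hvv]; linarith
              · simp [hv3]
            have hsplit : lor (x w') (v s + v t) = lor (x w') (v s) + lor (x w') (v t) := by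
              simp only [lor, Pi.add_apply]; ring
            rw [hsplit] at hcausal
            rw [hexp]
            nlinarith [mul_nonneg_of_nonpos_of_nonpos hneg.le (by linarith : lor (v s) (v t) + 2 ≤ 0)]
        refine ⟨?_, hnt⟩
        intro hdt
        -- t is also a left descent: use w'' = t w
        have ht' := cs.isLeftDescent_iff.1 hdt
        have hlen2 : cs.length (cs.simple t * w) = n := by omega
        obtain ⟨_, jh3⟩ := ih _ hlen2
        have hnd2 : ¬ cs.IsLeftDescent (cs.simple t * w) t := by
          rw [cs.not_isLeftDescent_iff, ← mul_assoc, cs.simple_mul_simple_self, one_mul]; omega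
        have hneg2 := (jh3 t).2 hnd2
        have hxt := hx t w
        have : lor (x (cs.simple t * w)) (v t) = - lor (x w) (v t) := by
          have e : lor (x (cs.simple t * w)) (v t) = lor (x w) (v t) - lor (x w) (v t) * lor (v t) (v t) := by
            rw [hxt]; simp only [lor, Pi.sub_apply, Pi.smul_apply, smul_eq_mul]; ring
          rw [e, hvv t]; ring
        rw [this] at hneg2
        linarith
  intro w
  exact hmain _ w rfl

end Pool.Agent.Helper219.AT.H36T
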